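import Pool.Agent.helper95.Sch.BI

/-!
Modules SM1, SM2: integration by parts in `B`.
-/

open scoped Pointwise ContDiff
open MeasureTheory Set Filter Topology

namespace Pool.Agent.helper41.Sch

theorem B_lip_smooth {φ u g : P → ℝ} (hφ : Cc φ) (hu : Lip u) (hg : ContDiff ℝ ∞ g) :
    B φ u g = (1 / 2) * ∫ x, u x * (d1 (d1 φ) x * d2 (d2 g) x + d2 (d2 φ) x * d1 (d1 g) x
      - 2 * (d1 (d2 φ) x * d1 (d2 g) x)) := by
  have hg1 := BI_smooth_d1 hg
  have hg2 := BI_smooth_d2 hg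
  have h12 := hφ.BI_d2.BI_d1
  have h22 := hφ.BI_d2.BI_d2
  have h11 := hφ.BI_d1.BI_d1
  set X : P → ℝ := fun x => d2 g x * d1 (d2 φ) x - d1 g x * d2 (d2 φ) x with hX
  set Y : P → ℝ := fun x => d1 g x * d1 (d2 φ) x - d2 g x * d1 (d1 φ) x with hY
  have hXc : Cc X := (h12.BI_mul_left hg2).BI_sub (h22.BI_mul_left hg1)
  have hYc : Cc Y := (h12.BI_mul_left hg1).BI_sub (h11.BI_mul_left hg2)
  obtain ⟨C, hC0, hC⟩ := hu.BI_d1_bdd
  obtain ⟨D, hD0, hD⟩ := hu.BI_d2_bdd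
  have i1 : Integrable (fun x => d1 u x * X x) :=
    BI_integrable_mul (BI_meas_d1 hu.BI_cont) hC hXc.BI_integrable
  have i2 : Integrable (fun x => d2 u x * Y x) :=
    BI_integrable_mul (BI_meas_d2 hu.BI_cont) hD hYc.BI_integrable
  have huX : Integrable (fun x => u x * d1 X x) :=
    (hu.BI_cont.mul hXc.BI_d1.BI_cont).integrable_of_hasCompactSupport hXc.BI_d1.2.mul_left
  have huY : Integrable (fun x => u x * d2 Y x) :=
    (hu.BI_cont.mul hYc.BI_d2.BI_cont).integrable_of_hasCompactSupport hYc.BI_d2.2.mul_left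
  unfold B
  congr 1
  have e1 : ∫ x, ((d1 u x * d2 g x + d2 u x * d1 g x) * d1 (d2 φ) x
    - d1 u x * d1 g x * d2 (d2 φ) x - d2 u x * d2 g x * d1 (d1 φ) x) =
      ∫ x, (d1 u x * X x + d2 u x * Y x) := by
    refine integral_congr_ae (Eventually.of_forall fun x => ?_)
    simp only [hX, hY]
    ring
  rw [e1, integral_add i1 i2, BI_ibp1 hu hXc, BI_ibp2 hu hYc, ← neg_add, ← integral_add huX huY,
    ← integral_neg]
  refine integral_congr_ae (Eventually.of_forall fun x => ?_)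
  simp only
  have dX : d1 X x = (d1 (d2 g) x * d1 (d2 φ) x + d2 g x * d1 (d1 (d2 φ)) x) -
      (d1 (d1 g) x * d2 (d2 φ) x + d1 g x * d1 (d2 (d2 φ)) x) := by
    rw [hX, BI_d1_sub ((h12.BI_mul_left hg2).BI_diff x) ((h22.BI_mul_left hg1).BI_diff x),
      BI_d1_mul (BI_smooth_diff hg2 x) (h12.BI_diff x),
      BI_d1_mul (BI_smooth_diff hg1 x) (h22.BI_diff x)]
  have dY : d2 Y x = (d2 (d1 g) x * d1 (d2 φ) x + d1 g x * d2 (d1 (d2 φ)) x) -
      (d2 (d2 g) x * d1 (d1 φ) x + d2 g x * d2 (d1 (d1 φ)) x) := by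
    rw [hY, BI_d2_sub ((h12.BI_mul_left hg1).BI_diff x) ((h11.BI_mul_left hg2).BI_diff x),
      BI_d2_mul (BI_smooth_diff hg1 x) (h12.BI_diff x),
      BI_d2_mul (BI_smooth_diff hg2 x) (h11.BI_diff x)]
  have c1 : d2 (d1 g) = d1 (d2 g) := BI_comm hg
  have c2 : d2 (d1 (d2 φ)) = d1 (d2 (d2 φ)) := BI_comm hφ.BI_d2.1
  have c3 : d2 (d1 (d1 φ)) = d1 (d1 (d2 φ)) := by
    rw [BI_comm hφ.BI_d1.1, BI_comm hφ.1]
  rw [dX, dY, c1, c2, c3]
  ring

theorem B_smooth {φ f g : P → ℝ} (hφ : Cc φ) (hf : ContDiff ℝ ∞ f) (hg : ContDiff ℝ ∞ g) :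
    B φ f g = (1 / 2) * ∫ x, φ x * (d1 (d1 f) x * d2 (d2 g) x + d2 (d2 f) x * d1 (d1 g) x
      - 2 * (d1 (d2 f) x * d1 (d2 g) x)) := by
  have hf1 := BI_smooth_d1 hf
  have hf2 := BI_smooth_d2 hf
  have hg1 := BI_smooth_d1 hg
  have hg2 := BI_smooth_d2 hg
  have hf11 := BI_smooth_d1 hf1
  have hf12 := BI_smooth_d1 hf2
  have hf22 := BI_smooth_d2 hf2
  have hg11 := BI_smooth_d1 hg1
  have hg12 := BI_smooth_d1 hg2
  have hg22 := BI_smooth_d2 hg2
  have p1 := hφ.BI_d1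
  have p2 := hφ.BI_d2
  -- smoothness of products
  have s22 : ContDiff ℝ ∞ fun x => d2 f x * d2 g x := hf2.mul hg2
  have s11 : ContDiff ℝ ∞ fun x => d1 f x * d1 g x := hf1.mul hg1
  have s12 : ContDiff ℝ ∞ fun x => d1 f x * d2 g x := hf1.mul hg2
  have s21 : ContDiff ℝ ∞ fun x => d2 f x * d1 g x := hf2.mul hg1
  set M : P → ℝ := fun x => d1 f x * d2 g x + d2 f x * d1 g x with hM
  have sM : ContDiff ℝ ∞ M := s12.add s21
  set A : P → ℝ := fun x => (d1 (d2 f) x * d1 g x + d1 f x * d1 (d2 g) x) -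
    (d1 (d1 f) x * d2 g x + d2 f x * d1 (d1 g) x) with hA
  have sA1 : ContDiff ℝ ∞ fun x => d1 (d2 f) x * d1 g x := hf12.mul hg1
  have sA2 : ContDiff ℝ ∞ fun x => d1 f x * d1 (d2 g) x := hf1.mul hg12
  have sA3 : ContDiff ℝ ∞ fun x => d1 (d1 f) x * d2 g x := hf11.mul hg2
  have sA4 : ContDiff ℝ ∞ fun x => d2 f x * d1 (d1 g) x := hf2.mul hg11
  have sA : ContDiff ℝ ∞ A := (sA1.add sA2).sub (sA3.add sA4)
  set D : P → ℝ := fun x => (d1 (d2 f) x * d2 g x + d2 f x * d1 (d2 g) x) -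
    (d1 f x * d2 (d2 g) x + d2 (d2 f) x * d1 g x) with hD
  have sD1 : ContDiff ℝ ∞ fun x => d1 (d2 f) x * d2 g x := hf12.mul hg2
  have sD2 : ContDiff ℝ ∞ fun x => d2 f x * d1 (d2 g) x := hf2.mul hg12
  have sD3 : ContDiff ℝ ∞ fun x => d1 f x * d2 (d2 g) x := hf1.mul hg22
  have sD4 : ContDiff ℝ ∞ fun x => d2 (d2 f) x * d1 g x := hf22.mul hg1
  have sD : ContDiff ℝ ∞ D := (sD1.add sD2).sub (sD3.add sD4)
  -- the vector field
  set X : P → ℝ := fun x => ((M x * d2 φ x) - 2 * ((d2 f x * d2 g x) * d1 φ x)) + D x * φ x with hX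
  set Y : P → ℝ := fun x => ((M x * d1 φ x) - 2 * ((d1 f x * d1 g x) * d2 φ x)) + A x * φ x with hY
  have cX1 : Cc fun x => M x * d2 φ x := p2.BI_mul_left sM
  have cX2 : Cc fun x => (d2 f x * d2 g x) * d1 φ x := p1.BI_mul_left s22
  have cX3 : Cc fun x => D x * φ x := hφ.BI_mul_left sD
  have cY1 : Cc fun x => M x * d1 φ x := p1.BI_mul_left sM
  have cY2 : Cc fun x => (d1 f x * d1 g x) * d2 φ x := p2.BI_mul_left s11
  have cY3 : Cc fun x => A x * φ x := hφ.BI_mul_left sA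
  have cX : Cc X := (cX1.BI_sub (cX2.BI_smul 2)).BI_add cX3
  have cY : Cc Y := (cY1.BI_sub (cY2.BI_smul 2)).BI_add cY3
  have hdiv : ∫ x, (d1 X x + d2 Y x) = 0 := by
    rw [integral_add cX.BI_d1.BI_integrable cY.BI_d2.BI_integrable, BI_int_d1 cX, BI_int_d2 cY,
      add_zero]
  -- the target integrand is smooth with compact support
  have cT : Cc fun x => (d1 (d1 f) x * d2 (d2 g) x + d2 (d2 f) x * d1 (d1 g) x
      - 2 * (d1 (d2 f) x * d1 (d2 g) x)) * φ x := by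
    refine hφ.BI_mul_left ?_
    exact ((hf11.mul hg22).add (hf22.mul hg11)).sub (contDiff_const.mul (hf12.mul hg12))
  unfold B
  congr 1
  have key : ∀ x, ((d1 f x * d2 g x + d2 f x * d1 g x) * d1 (d2 φ) x
    - d1 f x * d1 g x * d2 (d2 φ) x - d2 f x * d2 g x * d1 (d1 φ) x) =
      (1 / 2) * (d1 X x + d2 Y x) + (d1 (d1 f) x * d2 (d2 g) x + d2 (d2 f) x * d1 (d1 g) x
      - 2 * (d1 (d2 f) x * d1 (d2 g) x)) * φ x := by
    intro x
    have dM1 : d1 M x = (d1 (d1 f) x * d2 g x + d1 f x * d1 (d2 g) x) +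
        (d1 (d2 f) x * d1 g x + d2 f x * d1 (d1 g) x) := by
      rw [hM, BI_d1_add (BI_smooth_diff s12 x) (BI_smooth_diff s21 x),
        BI_d1_mul (BI_smooth_diff hf1 x) (BI_smooth_diff hg2 x),
        BI_d1_mul (BI_smooth_diff hf2 x) (BI_smooth_diff hg1 x)]
    have dM2 : d2 M x = (d1 (d2 f) x * d2 g x + d1 f x * d2 (d2 g) x) +
        (d2 (d2 f) x * d1 g x + d2 f x * d1 (d2 g) x) := by
      rw [hM, BI_d2_add (BI_smooth_diff s12 x) (BI_smooth_diff s21 x),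
        BI_d2_mul (BI_smooth_diff hf1 x) (BI_smooth_diff hg2 x),
        BI_d2_mul (BI_smooth_diff hf2 x) (BI_smooth_diff hg1 x), BI_comm hf, BI_comm hg]
    have dD : d1 D x = ((d1 (d1 (d2 f)) x * d2 g x + d1 (d2 f) x * d1 (d2 g) x) +
        (d1 (d2 f) x * d1 (d2 g) x + d2 f x * d1 (d1 (d2 g)) x)) -
        ((d1 (d1 f) x * d2 (d2 g) x + d1 f x * d1 (d2 (d2 g)) x) +
        (d1 (d2 (d2 f)) x * d1 g x + d2 (d2 f) x * d1 (d1 g) x)) := by
      rw [hD, BI_d1_sub (BI_smooth_diff (sD1.add sD2) x) (BI_smooth_diff (sD3.add sD4) x),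
        BI_d1_add (BI_smooth_diff sD1 x) (BI_smooth_diff sD2 x),
        BI_d1_add (BI_smooth_diff sD3 x) (BI_smooth_diff sD4 x),
        BI_d1_mul (BI_smooth_diff hf12 x) (BI_smooth_diff hg2 x),
        BI_d1_mul (BI_smooth_diff hf2 x) (BI_smooth_diff hg12 x),
        BI_d1_mul (BI_smooth_diff hf1 x) (BI_smooth_diff hg22 x),
        BI_d1_mul (BI_smooth_diff hf22 x) (BI_smooth_diff hg1 x)]
    have dA : d2 A x = ((d1 (d2 (d2 f)) x * d1 g x + d1 (d2 f) x * d1 (d2 g) x) +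
        (d1 (d2 f) x * d1 (d2 g) x + d1 f x * d1 (d2 (d2 g)) x)) -
        ((d1 (d1 (d2 f)) x * d2 g x + d1 (d1 f) x * d2 (d2 g) x) +
        (d2 (d2 f) x * d1 (d1 g) x + d2 f x * d1 (d1 (d2 g)) x)) := by
      have c1 : d2 (d1 (d2 f)) = d1 (d2 (d2 f)) := BI_comm hf2
      have c2 : d2 (d1 (d2 g)) = d1 (d2 (d2 g)) := BI_comm hg2
      have c3 : d2 (d1 (d1 f)) = d1 (d1 (d2 f)) := by rw [BI_comm hf1, BI_comm hf]
      have c4 : d2 (d1 (d1 g)) = d1 (d1 (d2 g)) := by rw [BI_comm hg1, BI_comm hg]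
      rw [hA, BI_d2_sub (BI_smooth_diff (sA1.add sA2) x) (BI_smooth_diff (sA3.add sA4) x),
        BI_d2_add (BI_smooth_diff sA1 x) (BI_smooth_diff sA2 x),
        BI_d2_add (BI_smooth_diff sA3 x) (BI_smooth_diff sA4 x),
        BI_d2_mul (BI_smooth_diff hf12 x) (BI_smooth_diff hg1 x),
        BI_d2_mul (BI_smooth_diff hf1 x) (BI_smooth_diff hg12 x),
        BI_d2_mul (BI_smooth_diff hf11 x) (BI_smooth_diff hg2 x),
        BI_d2_mul (BI_smooth_diff hf2 x) (BI_smooth_diff hg11 x), c1, c2, c3, c4,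
        BI_comm hf, BI_comm hg]
    have dX : d1 X x = ((d1 M x * d2 φ x + M x * d1 (d2 φ) x) -
        2 * ((d1 (d2 f) x * d2 g x + d2 f x * d1 (d2 g) x) * d1 φ x +
          (d2 f x * d2 g x) * d1 (d1 φ) x)) + (d1 D x * φ x + D x * d1 φ x) := by
      rw [hX, BI_d1_add ((cX1.BI_sub (cX2.BI_smul 2)).BI_diff x) (cX3.BI_diff x),
        BI_d1_sub (cX1.BI_diff x) ((cX2.BI_smul 2).BI_diff x), BI_d1_smul,
        BI_d1_mul (BI_smooth_diff sM x) (p2.BI_diff x),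
        BI_d1_mul (BI_smooth_diff s22 x) (p1.BI_diff x),
        BI_d1_mul (BI_smooth_diff hf2 x) (BI_smooth_diff hg2 x),
        BI_d1_mul (BI_smooth_diff sD x) (hφ.BI_diff x)]
    have dY : d2 Y x = ((d2 M x * d1 φ x + M x * d1 (d2 φ) x) -
        2 * ((d1 (d2 f) x * d1 g x + d1 f x * d1 (d2 g) x) * d2 φ x +
          (d1 f x * d1 g x) * d2 (d2 φ) x)) + (d2 A x * φ x + A x * d2 φ x) := by
      rw [hY, BI_d2_add ((cY1.BI_sub (cY2.BI_smul 2)).BI_diff x) (cY3.BI_diff x),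
        BI_d2_sub (cY1.BI_diff x) ((cY2.BI_smul 2).BI_diff x), BI_d2_smul,
        BI_d2_mul (BI_smooth_diff sM x) (p1.BI_diff x),
        BI_d2_mul (BI_smooth_diff s11 x) (p2.BI_diff x),
        BI_d2_mul (BI_smooth_diff hf1 x) (BI_smooth_diff hg1 x),
        BI_d2_mul (BI_smooth_diff sA x) (hφ.BI_diff x), BI_comm hf, BI_comm hg, BI_comm hφ.1]
    rw [dX, dY, dM1, dM2, dD, dA]
    simp only [hM, hA, hD]
    ring
  have hint : Integrable (fun x => (1 / 2 : ℝ) * (d1 X x + d2 Y x)) :=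
    (cX.BI_d1.BI_integrable.add cY.BI_d2.BI_integrable).const_mul _
  simp_rw [key]
  rw [integral_add hint cT.BI_integrable, integral_const_mul, hdiv, mul_zero, zero_add]
  refine integral_congr_ae (Eventually.of_forall fun x => ?_)
  simp only
  ring

end Pool.Agent.helper41.Sch
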