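import Pool.Agent.helper95.Sch.Calc

/-!
Module BI: bilinearity and locality of `B`.
-/

open scoped Pointwise ContDiff
open MeasureTheory Set Filter Topology

namespace Pool.Agent.helper41.Sch

theorem B_symm (φ f g : P → ℝ) : B φ f g = B φ g f := by
  unfold B
  congr 1
  refine integral_congr_ae (Eventually.of_forall fun x => ?_)
  simp only
  ring

theorem B_add_left {φ f f' g : P → ℝ} (hφ : Cc φ) (hf : Lip f) (hf' : Lip f') (hg : Lip g) :
    B φ (fun x => f x + f' x) g = B φ f g + B φ f' g := by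
  obtain ⟨K, hK⟩ := id hf
  obtain ⟨K', hK'⟩ := id hf'
  unfold B
  rw [← mul_add, ← integral_add (BI_integrable hφ hf hg) (BI_integrable hφ hf' hg)]
  congr 1
  refine integral_congr_ae ?_
  filter_upwards [hK.ae_lineDifferentiableAt (μ := volume) ((1 : ℝ), (0 : ℝ)),
    hK'.ae_lineDifferentiableAt (μ := volume) ((1 : ℝ), (0 : ℝ)),
    hK.ae_lineDifferentiableAt (μ := volume) ((0 : ℝ), (1 : ℝ)),
    hK'.ae_lineDifferentiableAt (μ := volume) ((0 : ℝ), (1 : ℝ))] with x h1 h1' h2 h2'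
  have e1 : d1 (fun x => f x + f' x) x = d1 f x + d1 f' x := by
    unfold d1 lineDeriv
    exact deriv_fun_add h1 h1'
  have e2 : d2 (fun x => f x + f' x) x = d2 f x + d2 f' x := by
    unfold d2 lineDeriv
    exact deriv_fun_add h2 h2'
  rw [e1, e2]
  ring

theorem B_smul_left {φ f g : P → ℝ} (hφ : Cc φ) (hf : Lip f) (hg : Lip g) (c : ℝ) :
    B φ (fun x => c * f x) g = c * B φ f g := by
  have key : ∫ x, ((d1 (fun x => c * f x) x * d2 g x + d2 (fun x => c * f x) x * d1 g x) *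
      d1 (d2 φ) x - d1 (fun x => c * f x) x * d1 g x * d2 (d2 φ) x
      - d2 (fun x => c * f x) x * d2 g x * d1 (d1 φ) x) =
      c * ∫ x, ((d1 f x * d2 g x + d2 f x * d1 g x) * d1 (d2 φ) x
    - d1 f x * d1 g x * d2 (d2 φ) x - d2 f x * d2 g x * d1 (d1 φ) x) := by
    rw [← integral_const_mul]
    refine integral_congr_ae (Eventually.of_forall fun x => ?_)
    simp only
    rw [BI_d1_smul, BI_d2_smul]
    ring
  unfold B
  rw [key]
  ring

theorem B_add_test {φ ψ f g : P → ℝ} (hφ : Cc φ) (hψ : Cc ψ) (hf : Lip f) (hg : Lip g) :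
    B (fun x => φ x + ψ x) f g = B φ f g + B ψ f g := by
  unfold B
  rw [← mul_add, ← integral_add (BI_integrable hφ hf hg) (BI_integrable hψ hf hg)]
  congr 1
  refine integral_congr_ae (Eventually.of_forall fun x => ?_)
  simp only
  have e1 : d1 (fun x => φ x + ψ x) = fun x => d1 φ x + d1 ψ x :=
    funext fun y => BI_d1_add (hφ.BI_diff y) (hψ.BI_diff y)
  have e2 : d2 (fun x => φ x + ψ x) = fun x => d2 φ x + d2 ψ x :=
    funext fun y => BI_d2_add (hφ.BI_diff y) (hψ.BI_diff y)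
  rw [e1, e2, BI_d1_add (hφ.BI_d2.BI_diff x) (hψ.BI_d2.BI_diff x),
    BI_d2_add (hφ.BI_d2.BI_diff x) (hψ.BI_d2.BI_diff x),
    BI_d1_add (hφ.BI_d1.BI_diff x) (hψ.BI_d1.BI_diff x)]
  ring

theorem B_smul_test {φ f g : P → ℝ} (hφ : Cc φ) (hf : Lip f) (hg : Lip g) (c : ℝ) :
    B (fun x => c * φ x) f g = c * B φ f g := by
  have e1 : d1 (fun x => c * φ x) = fun x => c * d1 φ x := funext fun y => BI_d1_smul c φ y
  have e2 : d2 (fun x => c * φ x) = fun x => c * d2 φ x := funext fun y => BI_d2_smul c φ y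
  have key : ∫ x, ((d1 f x * d2 g x + d2 f x * d1 g x) * d1 (d2 (fun x => c * φ x)) x
    - d1 f x * d1 g x * d2 (d2 (fun x => c * φ x)) x
    - d2 f x * d2 g x * d1 (d1 (fun x => c * φ x)) x) =
      c * ∫ x, ((d1 f x * d2 g x + d2 f x * d1 g x) * d1 (d2 φ) x
    - d1 f x * d1 g x * d2 (d2 φ) x - d2 f x * d2 g x * d1 (d1 φ) x) := by
    rw [← integral_const_mul]
    refine integral_congr_ae (Eventually.of_forall fun x => ?_)
    simp only
    rw [e1, e2, BI_d1_smul, BI_d2_smul, BI_d1_smul]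
    ring
  unfold B
  rw [key]
  ring

theorem B_congr_left {φ f f' g : P → ℝ} (U : Set P) (hU : IsOpen U) (hφU : tsupport φ ⊆ U)
    (h : ∀ x ∈ U, f x = f' x) : B φ f g = B φ f' g := by
  unfold B
  congr 1
  refine integral_congr_ae (Eventually.of_forall fun x => ?_)
  simp only
  by_cases hx : x ∈ tsupport φ
  · have he : f =ᶠ[𝓝 x] f' := by
      filter_upwards [hU.mem_nhds (hφU hx)] with y hy using h y hy
    rw [BI_d1_congr he, BI_d2_congr he]
  · obtain ⟨h1, h2, h3, -⟩ := BI_second_const (BI_ev_zero hx)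
    rw [h1, h2, h3]
    ring

theorem B_plateau {φ u g : P → ℝ} (O : Set P) (hO : IsOpen O) (hu : tsupport u ⊆ O)
    (hφ : ∀ x ∈ O, φ x = 1) : B φ u g = 0 := by
  unfold B
  rw [integral_eq_zero_of_ae, mul_zero]
  refine Eventually.of_forall fun x => ?_
  simp only [Pi.zero_apply]
  by_cases hx : x ∈ O
  · have he : φ =ᶠ[𝓝 x] fun _ => 1 := by
      filter_upwards [hO.mem_nhds hx] with y hy using hφ y hy
    obtain ⟨h1, h2, h3, -⟩ := BI_second_const he
    rw [h1, h2, h3]
    ring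
  · have he := BI_ev_zero (fun h => hx (hu h))
    rw [BI_d1_congr he, BI_d2_congr he, BI_d1_const, BI_d2_const]
    ring

end Pool.Agent.helper41.Sch
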