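import Pool.Agent.helper41.Sch.Defs

/-!
Calculus of the partial derivatives `d1`, `d2` on the plane (part of module BI).
-/

open scoped Pointwise ContDiff
open MeasureTheory Set Filter Topology

namespace Pool.Agent.helper41.Sch

/-! ### Smooth functions -/

lemma BI_d1_eq {f : P → ℝ} {x : P} (hf : DifferentiableAt ℝ f x) :
    d1 f x = fderiv ℝ f x ((1 : ℝ), (0 : ℝ)) := hf.lineDeriv_eq_fderiv

lemma BI_d2_eq {f : P → ℝ} {x : P} (hf : DifferentiableAt ℝ f x) :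
    d2 f x = fderiv ℝ f x ((0 : ℝ), (1 : ℝ)) := hf.lineDeriv_eq_fderiv

lemma BI_smooth_diff {f : P → ℝ} (hf : ContDiff ℝ ∞ f) : Differentiable ℝ f :=
  hf.differentiable (by simp)

lemma BI_smooth_d1 {f : P → ℝ} (hf : ContDiff ℝ ∞ f) : ContDiff ℝ ∞ (d1 f) := by
  have h : d1 f = fun x => fderiv ℝ f x ((1 : ℝ), (0 : ℝ)) :=
    funext fun x => BI_d1_eq (BI_smooth_diff hf x)
  rw [h]
  exact (hf.fderiv_right (m := ∞) (by simp)).clm_apply contDiff_const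

lemma BI_smooth_d2 {f : P → ℝ} (hf : ContDiff ℝ ∞ f) : ContDiff ℝ ∞ (d2 f) := by
  have h : d2 f = fun x => fderiv ℝ f x ((0 : ℝ), (1 : ℝ)) :=
    funext fun x => BI_d2_eq (BI_smooth_diff hf x)
  rw [h]
  exact (hf.fderiv_right (m := ∞) (by simp)).clm_apply contDiff_const

/-- `∂₂∂₁ = ∂₁∂₂`. -/
lemma BI_comm {f : P → ℝ} (hf : ContDiff ℝ ∞ f) : d2 (d1 f) = d1 (d2 f) := by
  funext x
  have h1 : d1 f = fun x => fderiv ℝ f x ((1 : ℝ), (0 : ℝ)) :=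
    funext fun x => BI_d1_eq (BI_smooth_diff hf x)
  have h2 : d2 f = fun x => fderiv ℝ f x ((0 : ℝ), (1 : ℝ)) :=
    funext fun x => BI_d2_eq (BI_smooth_diff hf x)
  have hd : ContDiff ℝ ∞ (fderiv ℝ f) := hf.fderiv_right (m := ∞) (by simp)
  have hdx : DifferentiableAt ℝ (fderiv ℝ f) x := (hd.differentiable (by simp)) x
  rw [BI_d2_eq (BI_smooth_diff (BI_smooth_d1 hf) x), BI_d1_eq (BI_smooth_diff (BI_smooth_d2 hf) x),
    h1, h2, fderiv_clm_apply hdx (by fun_prop), fderiv_clm_apply hdx (by fun_prop)]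
  simp only [fderiv_fun_const, Pi.zero_apply, ContinuousLinearMap.comp_zero, zero_add,
    ContinuousLinearMap.flip_apply]
  have hsymm : IsSymmSndFDerivAt ℝ f x := by
    refine (hf.contDiffAt (x := x)).isSymmSndFDerivAt ?_
    rw [minSmoothness_of_isRCLikeNormedField]
    exact WithTop.coe_le_coe.2 (le_top : (2 : ℕ∞) ≤ ⊤)
  exact hsymm.eq _ _

section rules
variable {f g : P → ℝ} {x : P}

lemma BI_d1_add (hf : DifferentiableAt ℝ f x) (hg : DifferentiableAt ℝ g x) :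
    d1 (fun y => f y + g y) x = d1 f x + d1 g x := by
  rw [BI_d1_eq hf, BI_d1_eq hg, BI_d1_eq (hf.fun_add hg), fderiv_fun_add hf hg]; simp

lemma BI_d2_add (hf : DifferentiableAt ℝ f x) (hg : DifferentiableAt ℝ g x) :
    d2 (fun y => f y + g y) x = d2 f x + d2 g x := by
  rw [BI_d2_eq hf, BI_d2_eq hg, BI_d2_eq (hf.fun_add hg), fderiv_fun_add hf hg]; simp

lemma BI_d1_sub (hf : DifferentiableAt ℝ f x) (hg : DifferentiableAt ℝ g x) :
    d1 (fun y => f y - g y) x = d1 f x - d1 g x := by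
  rw [BI_d1_eq hf, BI_d1_eq hg, BI_d1_eq (hf.fun_sub hg), fderiv_fun_sub hf hg]; simp

lemma BI_d2_sub (hf : DifferentiableAt ℝ f x) (hg : DifferentiableAt ℝ g x) :
    d2 (fun y => f y - g y) x = d2 f x - d2 g x := by
  rw [BI_d2_eq hf, BI_d2_eq hg, BI_d2_eq (hf.fun_sub hg), fderiv_fun_sub hf hg]; simp

lemma BI_d1_mul (hf : DifferentiableAt ℝ f x) (hg : DifferentiableAt ℝ g x) :
    d1 (fun y => f y * g y) x = d1 f x * g x + f x * d1 g x := by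
  rw [BI_d1_eq hf, BI_d1_eq hg, BI_d1_eq (hf.fun_mul hg), fderiv_fun_mul hf hg]
  simp
  ring

lemma BI_d2_mul (hf : DifferentiableAt ℝ f x) (hg : DifferentiableAt ℝ g x) :
    d2 (fun y => f y * g y) x = d2 f x * g x + f x * d2 g x := by
  rw [BI_d2_eq hf, BI_d2_eq hg, BI_d2_eq (hf.fun_mul hg), fderiv_fun_mul hf hg]
  simp
  ring

/-- No differentiability is needed for constant multiples. -/
lemma BI_d1_smul (c : ℝ) (f : P → ℝ) (x : P) : d1 (fun y => c * f y) x = c * d1 f x := by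
  unfold d1 lineDeriv
  exact deriv_const_mul_field c

lemma BI_d2_smul (c : ℝ) (f : P → ℝ) (x : P) : d2 (fun y => c * f y) x = c * d2 f x := by
  unfold d2 lineDeriv
  exact deriv_const_mul_field c

end rules

/-! ### Locality -/

lemma BI_d1_congr {f g : P → ℝ} {x : P} (h : f =ᶠ[𝓝 x] g) : d1 f x = d1 g x := h.lineDeriv_eq

lemma BI_d2_congr {f g : P → ℝ} {x : P} (h : f =ᶠ[𝓝 x] g) : d2 f x = d2 g x := h.lineDeriv_eq

lemma BI_d1_const (c : ℝ) (x : P) : d1 (fun _ => c) x = 0 := by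
  unfold d1 lineDeriv
  exact deriv_const _ _

lemma BI_d2_const (c : ℝ) (x : P) : d2 (fun _ => c) x = 0 := by
  unfold d2 lineDeriv
  exact deriv_const _ _

/-- If `f` is constant near `x`, so are its partial derivatives (equal to zero). -/
lemma BI_d1_ev_const {f : P → ℝ} {x : P} {c : ℝ} (h : f =ᶠ[𝓝 x] fun _ => c) :
    d1 f =ᶠ[𝓝 x] fun _ => 0 := by
  filter_upwards [h.eventuallyEq_nhds] with y hy
  rw [BI_d1_congr hy, BI_d1_const]

lemma BI_d2_ev_const {f : P → ℝ} {x : P} {c : ℝ} (h : f =ᶠ[𝓝 x] fun _ => c) :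
    d2 f =ᶠ[𝓝 x] fun _ => 0 := by
  filter_upwards [h.eventuallyEq_nhds] with y hy
  rw [BI_d2_congr hy, BI_d2_const]

/-- Second derivatives vanish where the function is locally constant. -/
lemma BI_second_const {f : P → ℝ} {x : P} {c : ℝ} (h : f =ᶠ[𝓝 x] fun _ => c) :
    d1 (d1 f) x = 0 ∧ d1 (d2 f) x = 0 ∧ d2 (d2 f) x = 0 ∧ d2 (d1 f) x = 0 :=
  ⟨by rw [BI_d1_congr (BI_d1_ev_const h), BI_d1_const],
    by rw [BI_d1_congr (BI_d2_ev_const h), BI_d1_const],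
    by rw [BI_d2_congr (BI_d2_ev_const h), BI_d2_const],
    by rw [BI_d2_congr (BI_d1_ev_const h), BI_d2_const]⟩

lemma BI_ev_zero {f : P → ℝ} {x : P} (h : x ∉ tsupport f) : f =ᶠ[𝓝 x] fun _ => 0 :=
  notMem_tsupport_iff_eventuallyEq.1 h

lemma BI_tsupport_d1 (f : P → ℝ) : tsupport (d1 f) ⊆ tsupport f := by
  intro x hx
  by_contra h
  exact (notMem_tsupport_iff_eventuallyEq.2 (BI_d1_ev_const (BI_ev_zero h))) hx

lemma BI_tsupport_d2 (f : P → ℝ) : tsupport (d2 f) ⊆ tsupport f := by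
  intro x hx
  by_contra h
  exact (notMem_tsupport_iff_eventuallyEq.2 (BI_d2_ev_const (BI_ev_zero h))) hx

/-! ### Test functions -/

lemma Cc.BI_smooth {φ : P → ℝ} (h : Cc φ) : ContDiff ℝ ∞ φ := h.1

lemma Cc.BI_diff {φ : P → ℝ} (h : Cc φ) : Differentiable ℝ φ := BI_smooth_diff h.1

lemma Cc.BI_cont {φ : P → ℝ} (h : Cc φ) : Continuous φ := h.1.continuous

lemma Cc.BI_supp {φ : P → ℝ} (h : Cc φ) : HasCompactSupport φ := h.2

lemma Cc.BI_integrable {φ : P → ℝ} (h : Cc φ) : Integrable φ :=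
  h.BI_cont.integrable_of_hasCompactSupport h.2

lemma Cc.BI_lip {φ : P → ℝ} (h : Cc φ) : Lip φ := by
  obtain ⟨C, hC⟩ := (h.1.of_le (m := 1) (by simp)).lipschitzWith_of_hasCompactSupport h.2 (by simp)
  exact ⟨C, hC⟩

lemma Cc.BI_d1 {φ : P → ℝ} (h : Cc φ) : Cc (d1 φ) :=
  ⟨BI_smooth_d1 h.1, h.2.mono' (subset_tsupport _ |>.trans (BI_tsupport_d1 φ))⟩

lemma Cc.BI_d2 {φ : P → ℝ} (h : Cc φ) : Cc (d2 φ) :=
  ⟨BI_smooth_d2 h.1, h.2.mono' (subset_tsupport _ |>.trans (BI_tsupport_d2 φ))⟩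

lemma Cc.BI_add {φ ψ : P → ℝ} (h : Cc φ) (h' : Cc ψ) : Cc (fun x => φ x + ψ x) :=
  ⟨h.1.add h'.1, h.2.add h'.2⟩

lemma Cc.BI_sub {φ ψ : P → ℝ} (h : Cc φ) (h' : Cc ψ) : Cc (fun x => φ x - ψ x) :=
  ⟨h.1.sub h'.1, h.2.sub h'.2⟩

lemma Cc.BI_neg {φ : P → ℝ} (h : Cc φ) : Cc (fun x => -φ x) := ⟨h.1.neg, h.2.neg⟩

lemma Cc.BI_smul {φ : P → ℝ} (h : Cc φ) (c : ℝ) : Cc (fun x => c * φ x) :=
  ⟨contDiff_const.mul h.1, h.2.mul_left⟩

lemma Cc.BI_mul_left {φ f : P → ℝ} (h : Cc φ) (hf : ContDiff ℝ ∞ f) : Cc (fun x => f x * φ x) :=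
  ⟨hf.mul h.1, h.2.mul_left⟩

lemma Cc.BI_mul_right {φ f : P → ℝ} (h : Cc φ) (hf : ContDiff ℝ ∞ f) : Cc (fun x => φ x * f x) :=
  ⟨h.1.mul hf, h.2.mul_right⟩

/-! ### Lipschitz functions -/

lemma Lip.BI_cont {f : P → ℝ} (h : Lip f) : Continuous f := h.choose_spec.continuous

lemma Lip.BI_add {f g : P → ℝ} (h : Lip f) (h' : Lip g) : Lip (fun x => f x + g x) :=
  ⟨_, h.choose_spec.add h'.choose_spec⟩

lemma Lip.BI_sub {f g : P → ℝ} (h : Lip f) (h' : Lip g) : Lip (fun x => f x - g x) :=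
  ⟨_, h.choose_spec.sub h'.choose_spec⟩

lemma Lip.BI_neg {f : P → ℝ} (h : Lip f) : Lip (fun x => -f x) := ⟨_, h.choose_spec.neg⟩

lemma Lip.BI_smul {f : P → ℝ} (h : Lip f) (c : ℝ) : Lip (fun x => c * f x) := by
  obtain ⟨K, hK⟩ := h
  exact ⟨_, (lipschitzWith_smul c).comp hK⟩

lemma Lip.BI_max {f g : P → ℝ} (h : Lip f) (h' : Lip g) : Lip (fun x => max (f x) (g x)) :=
  ⟨_, h.choose_spec.max h'.choose_spec⟩

lemma Lip.BI_d1_bdd {f : P → ℝ} (h : Lip f) : ∃ C : ℝ, 0 ≤ C ∧ ∀ x, ‖d1 f x‖ ≤ C := by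
  obtain ⟨K, hK⟩ := h
  exact ⟨K * ‖((1 : ℝ), (0 : ℝ))‖, by positivity, fun x => norm_lineDeriv_le_of_lipschitz ℝ hK⟩

lemma Lip.BI_d2_bdd {f : P → ℝ} (h : Lip f) : ∃ C : ℝ, 0 ≤ C ∧ ∀ x, ‖d2 f x‖ ≤ C := by
  obtain ⟨K, hK⟩ := h
  exact ⟨K * ‖((0 : ℝ), (1 : ℝ))‖, by positivity, fun x => norm_lineDeriv_le_of_lipschitz ℝ hK⟩

lemma BI_meas_d1 {f : P → ℝ} (h : Continuous f) : Measurable (d1 f) := measurable_lineDeriv h

lemma BI_meas_d2 {f : P → ℝ} (h : Continuous f) : Measurable (d2 f) := measurable_lineDeriv h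

/-- Bounded measurable functions times continuous functions of compact support. -/
lemma BI_integrable_mul {a ψ : P → ℝ} (ha : Measurable a) {C : ℝ} (hC : ∀ x, ‖a x‖ ≤ C)
    (hψ : Integrable ψ) : Integrable (fun x => a x * ψ x) :=
  hψ.bdd_mul ha.aestronglyMeasurable (Eventually.of_forall hC)

lemma BI_int11 {f g ψ : P → ℝ} (hf : Lip f) (hg : Lip g) (hψ : Integrable ψ) :
    Integrable (fun x => d1 f x * d1 g x * ψ x) := by
  obtain ⟨C, hC0, hC⟩ := hf.BI_d1_bdd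
  obtain ⟨D, _, hD⟩ := hg.BI_d1_bdd
  refine BI_integrable_mul (C := C * D) ((BI_meas_d1 hf.BI_cont).mul (BI_meas_d1 hg.BI_cont)) ?_ hψ
  intro x
  rw [norm_mul]
  exact mul_le_mul (hC x) (hD x) (norm_nonneg _) hC0

lemma BI_int12 {f g ψ : P → ℝ} (hf : Lip f) (hg : Lip g) (hψ : Integrable ψ) :
    Integrable (fun x => d1 f x * d2 g x * ψ x) := by
  obtain ⟨C, hC0, hC⟩ := hf.BI_d1_bdd
  obtain ⟨D, _, hD⟩ := hg.BI_d2_bdd
  refine BI_integrable_mul (C := C * D) ((BI_meas_d1 hf.BI_cont).mul (BI_meas_d2 hg.BI_cont)) ?_ hψ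
  intro x
  rw [norm_mul]
  exact mul_le_mul (hC x) (hD x) (norm_nonneg _) hC0

lemma BI_int22 {f g ψ : P → ℝ} (hf : Lip f) (hg : Lip g) (hψ : Integrable ψ) :
    Integrable (fun x => d2 f x * d2 g x * ψ x) := by
  obtain ⟨C, hC0, hC⟩ := hf.BI_d2_bdd
  obtain ⟨D, _, hD⟩ := hg.BI_d2_bdd
  refine BI_integrable_mul (C := C * D) ((BI_meas_d2 hf.BI_cont).mul (BI_meas_d2 hg.BI_cont)) ?_ hψ
  intro x
  rw [norm_mul]
  exact mul_le_mul (hC x) (hD x) (norm_nonneg _) hC0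

/-- The integrand of `B` is integrable. -/
lemma BI_integrable {φ f g : P → ℝ} (hφ : Cc φ) (hf : Lip f) (hg : Lip g) :
    Integrable (fun x => (d1 f x * d2 g x + d2 f x * d1 g x) * d1 (d2 φ) x
    - d1 f x * d1 g x * d2 (d2 φ) x - d2 f x * d2 g x * d1 (d1 φ) x) := by
  have h1 := BI_int12 hf hg hφ.BI_d2.BI_d1.BI_integrable
  have h2 := BI_int12 hg hf hφ.BI_d2.BI_d1.BI_integrable
  have h3 := BI_int11 hf hg hφ.BI_d2.BI_d2.BI_integrable
  have h4 := BI_int22 hf hg hφ.BI_d1.BI_d1.BI_integrable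
  refine (((h1.add h2).sub h3).sub h4).congr (Eventually.of_forall fun x => ?_)
  simp only [Pi.add_apply, Pi.sub_apply]
  ring

/-! ### Integration by parts -/

lemma BI_neg_d1 {g : P → ℝ} (hg : Differentiable ℝ g) (x : P) :
    lineDeriv ℝ g x (-((1 : ℝ), (0 : ℝ))) = -d1 g x := by
  rw [(hg x).lineDeriv_eq_fderiv, map_neg, BI_d1_eq (hg x)]

lemma BI_neg_d2 {g : P → ℝ} (hg : Differentiable ℝ g) (x : P) :
    lineDeriv ℝ g x (-((0 : ℝ), (1 : ℝ))) = -d2 g x := by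
  rw [(hg x).lineDeriv_eq_fderiv, map_neg, BI_d2_eq (hg x)]

lemma BI_ibp1 {u ψ : P → ℝ} (hu : Lip u) (hψ : Cc ψ) :
    ∫ x, d1 u x * ψ x = -∫ x, u x * d1 ψ x := by
  obtain ⟨K, hK⟩ := hu
  obtain ⟨D, hD⟩ := hψ.BI_lip
  have h := LipschitzWith.integral_lineDeriv_mul_eq (μ := volume) hK hD hψ.2 ((1 : ℝ), (0 : ℝ))
  unfold d1 at *
  rw [h, ← integral_neg]
  refine integral_congr_ae (Eventually.of_forall fun x => ?_)
  simp only
  rw [BI_neg_d1 hψ.BI_diff, d1]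
  ring

lemma BI_ibp2 {u ψ : P → ℝ} (hu : Lip u) (hψ : Cc ψ) :
    ∫ x, d2 u x * ψ x = -∫ x, u x * d2 ψ x := by
  obtain ⟨K, hK⟩ := hu
  obtain ⟨D, hD⟩ := hψ.BI_lip
  have h := LipschitzWith.integral_lineDeriv_mul_eq (μ := volume) hK hD hψ.2 ((0 : ℝ), (1 : ℝ))
  unfold d2 at *
  rw [h, ← integral_neg]
  refine integral_congr_ae (Eventually.of_forall fun x => ?_)
  simp only
  rw [BI_neg_d2 hψ.BI_diff, d2]
  ring

lemma BI_int_d1 {ψ : P → ℝ} (hψ : Cc ψ) : ∫ x, d1 ψ x = 0 := by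
  have h := BI_ibp1 (u := fun _ => (1 : ℝ)) ⟨0, LipschitzWith.const _⟩ hψ
  simp only [BI_d1_const, zero_mul, integral_zero, one_mul] at h
  linarith

lemma BI_int_d2 {ψ : P → ℝ} (hψ : Cc ψ) : ∫ x, d2 ψ x = 0 := by
  have h := BI_ibp2 (u := fun _ => (1 : ℝ)) ⟨0, LipschitzWith.const _⟩ hψ
  simp only [BI_d2_const, zero_mul, integral_zero, one_mul] at h
  linarith

end Pool.Agent.helper41.Sch
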